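import Mathlib
import Pool.Agent.H96cond.Uniq

open Filter Topology

namespace Pool.Agent.Results.MP_2eb999_an.Conditional

/-- The sequence space of square summable scalar sequences with its usual norm. -/
abbrev Ell2 (𝕜 : Type) [RCLike 𝕜] : Type := lp (fun _ : ℕ => 𝕜) 2

variable {𝕜 : Type} [RCLike 𝕜]

/-- `N` is a norm on `Ell2 𝕜` equivalent to the usual norm. -/
def IsEquivalentNorm (N : Ell2 𝕜 → ℝ) : Prop :=
  (∀ u v, N (u + v) ≤ N u + N v) ∧ (∀ (c : 𝕜) (u : Ell2 𝕜), N (c • u) = ‖c‖ * N u) ∧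
    ∃ c C : ℝ, 0 < c ∧ ∀ u, c * ‖u‖ ≤ N u ∧ N u ≤ C * ‖u‖

/-- The series with terms `a n • x n` converges (in the given order) to `v` for the norm `N`. -/
def ExpandsTo (N : Ell2 𝕜 → ℝ) (x : ℕ → Ell2 𝕜) (a : ℕ → 𝕜) (v : Ell2 𝕜) : Prop :=
  Tendsto (fun K : ℕ => N (∑ n ∈ Finset.range K, a n • x n - v)) atTop (𝓝 0)

/-- The series with terms `a n • x n` converges unconditionally to `v` for the norm `N`:
the net of its sums over finite sets of indices converges. -/
def ExpandsUnconditionallyTo (N : Ell2 𝕜 → ℝ) (x : ℕ → Ell2 𝕜) (a : ℕ → 𝕜) (v : Ell2 𝕜) : Prop :=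
  Tendsto (fun t : Finset ℕ => N (∑ n ∈ t, a n • x n - v)) atTop (𝓝 0)

/-- `x` is a Schauder basis for the norm `N`. -/
def IsSchauderBasis (N : Ell2 𝕜 → ℝ) (x : ℕ → Ell2 𝕜) : Prop :=
  ∀ v, ∃! a : ℕ → 𝕜, ExpandsTo N x a v

/-- Some expansion does not converge unconditionally. -/
def IsConditional (N : Ell2 𝕜 → ℝ) (x : ℕ → Ell2 𝕜) : Prop :=
  ∃ v a, ExpandsTo N x a v ∧ ¬ ExpandsUnconditionallyTo N x a v

/-- The coefficient sequence `b` is a greedy rearrangement of the coefficient sequence `a`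
(`‖a k‖` is less than the supremum exactly when it is less than some `‖a n‖`). -/
def IsGreedyRearrangement (a b : ℕ → 𝕜) : Prop :=
  ∃ π : Equiv.Perm ℕ, (∀ n, ‖b (π n)‖ = ‖a n‖) ∧
    ∀ k, a k ≠ 0 → (∃ n, ‖a k‖ < ‖a n‖) → π k = k ∧ b k = a k

/-- Property (A) of the basis `x` for the norm `N`. -/
def HasPropertyA (N : Ell2 𝕜 → ℝ) (x : ℕ → Ell2 𝕜) : Prop :=
  ∀ (u v : Ell2 𝕜) (a b : ℕ → 𝕜), ExpandsTo N x a u → ExpandsTo N x b v →
    IsGreedyRearrangement a b → N u = N v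

/-- There is an equivalent norm on the sequence space together with a conditional Schauder basis
which has Property (A) for that norm (real and complex scalars). -/
theorem result (𝕜 : Type) [RCLike 𝕜] :
    ∃ (N : Ell2 𝕜 → ℝ) (x : ℕ → Ell2 𝕜),
      IsEquivalentNorm N ∧ IsSchauderBasis N x ∧ IsConditional N x ∧ HasPropertyA N x := by
  obtain ⟨S, hbad⟩ := H96cond.exists_sys 𝕜
  have hexp : ∀ (a : ℕ → 𝕜) (v : Ell2 𝕜), ExpandsTo (H96cond.NN S) S.e a v ↔
      ∀ m, a m = S.a m v := by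
    intro a v
    constructor
    · intro h
      exact H96cond.expands_unique S a v ((H96cond.tendsto_iff_NN S _ _ _).1 h)
    · intro h
      obtain rfl : a = fun m => S.a m v := funext h
      exact (H96cond.tendsto_iff_NN S _ _ _).2 (S.conv v)
  refine ⟨H96cond.NN S, S.e, ⟨H96cond.NN_add S, H96cond.NN_smul S, 1 / 640, 6, by norm_num,
    fun u => ⟨H96cond.NN_lower S u, H96cond.NN_le S u⟩⟩, ?_, ?_, ?_⟩
  · intro v
    refine ⟨fun m => S.a m v, (hexp _ _).2 fun _ => rfl, ?_⟩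
    intro a ha
    exact funext ((hexp _ _).1 ha)
  · obtain ⟨v, hv⟩ := H96cond.bad_not_summable S hbad
    refine ⟨v, fun m => S.a m v, (hexp _ _).2 fun _ => rfl, ?_⟩
    intro h
    exact hv ⟨v, (H96cond.tendsto_iff_NN S _ _ _).1 h⟩
  · rintro u v a b ha hb ⟨π, h1, h2⟩
    rw [hexp] at ha hb
    apply H96cond.NN_eq_of_rearr S u v π
    · intro n
      rw [← ha, ← hb]
      exact h1 n
    · intro k hk hlt
      rw [← ha, ← hb]
      rw [← ha] at hk
      obtain ⟨n, hn⟩ := hlt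
      rw [← ha, ← ha] at hn
      exact h2 k hk ⟨n, hn⟩

end Pool.Agent.Results.MP_2eb999_an.Conditional
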